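import Mathlib

/-! A continuum which is uniformly pathwise connected but not uniformly arcwise connected
(Kuperberg's question). -/

set_option autoImplicit false

open Set Topology Real

namespace Pool.Agent.D0H84.Kup

/-- The condition on the pair `(h, u)`. -/
def Kond (h u : ℝ) : Prop := u = 0 ∨ min h 1 = Real.sin (1 / u) ^ 2

/-- The set of parameters `(h, u)`. -/
def KK : Set (ℝ × ℝ) := {q | q.1 ∈ Icc (0:ℝ) 2 ∧ q.2 ∈ Icc (0:ℝ) 1 ∧ Kond q.1 q.2}

/-- The continuum. -/
def XX : Set (ℝ × ℝ) := (fun q : ℝ × ℝ => (q.1, (2 - q.1) * q.2)) '' KK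

lemma isClosed_kond : IsClosed {q : ℝ × ℝ | Kond q.1 q.2} := by
  rw [← isOpen_compl_iff]
  have h1 : {q : ℝ × ℝ | Kond q.1 q.2}ᶜ =
      {q : ℝ × ℝ | q.2 ≠ 0} ∩ (fun q : ℝ × ℝ => min q.1 1 - Real.sin (1 / q.2) ^ 2) ⁻¹' {0}ᶜ := by
    ext q
    simp only [Kond, mem_compl_iff, mem_ofPred_eq, not_or, mem_inter_iff, mem_preimage,
      mem_singleton_iff, sub_eq_zero, ne_eq]
  rw [h1]
  apply ContinuousOn.isOpen_inter_preimage
  · apply ContinuousOn.sub
    · exact (continuous_fst.min continuous_const).continuousOn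
    · apply ContinuousOn.pow
      apply Real.continuous_sin.comp_continuousOn
      exact continuousOn_const.div continuous_snd.continuousOn (fun q hq => hq)
  · exact isOpen_ne_fun continuous_snd continuous_const
  · exact isOpen_compl_singleton

lemma isCompact_KK : IsCompact KK := by
  have : KK = (Icc (0:ℝ) 2 ×ˢ Icc (0:ℝ) 1) ∩ {q : ℝ × ℝ | Kond q.1 q.2} := by
    ext q
    simp only [KK, mem_ofPred_eq, mem_inter_iff, mem_prod]
    tauto
  rw [this]
  exact (isCompact_Icc.prod isCompact_Icc).inter_right isClosed_kond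

lemma isCompact_XX : IsCompact XX :=
  isCompact_KK.image (by fun_prop)

lemma mem_XX {h u : ℝ} (hh : h ∈ Icc (0:ℝ) 2) (hu : u ∈ Icc (0:ℝ) 1) (hk : Kond h u) :
    (h, (2 - h) * u) ∈ XX := ⟨(h, u), ⟨hh, hu, hk⟩, rfl⟩

/-- The space -/
abbrev X : Type := XX

instance : CompactSpace X := isCompact_iff_compactSpace.mp isCompact_XX

/-- The apex -/
def apex : X := ⟨(2, (2 - 2) * 0), mem_XX ⟨by norm_num, le_rfl⟩ ⟨le_rfl, zero_le_one⟩ (Or.inl rfl)⟩

lemma apex_fst : apex.1.1 = 2 := rfl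

lemma eq_apex {x : X} (h : x.1.1 = 2) : x = apex := by
  obtain ⟨⟨a, b⟩, ⟨h', u⟩, hx, he⟩ := x
  simp only [Prod.mk.injEq] at he
  simp only at h
  subst h
  obtain ⟨h1, h2⟩ := he
  subst h1
  apply Subtype.ext
  simp only [apex]
  rw [← h2]
  simp

/-- Lipschitz paths. -/
def LipPath {Y : Type} [MetricSpace Y] (K : ℝ) {a b : Y} (p : Path a b) : Prop :=
  ∀ s t : unitInterval, dist (p s) (p t) ≤ K * |(s : ℝ) - t|

lemma LipPath.symm {Y : Type} [MetricSpace Y] {K : ℝ} {a b : Y} {p : Path a b}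
    (hp : LipPath K p) : LipPath K p.symm := by
  intro s t
  have := hp (unitInterval.symm s) (unitInterval.symm t)
  simp only [Path.symm_apply, unitInterval.coe_symm_eq] at this ⊢
  refine this.trans (le_of_eq ?_)
  congr 1
  rw [show (1 - (s:ℝ) - (1 - t)) = -((s:ℝ) - t) by ring, abs_neg]

lemma LipPath.trans {Y : Type} [MetricSpace Y] {K : ℝ} {a b c : Y} {p : Path a b}
    {q : Path b c} (hp : LipPath K p) (hq : LipPath K q) : LipPath (2 * K) (p.trans q) := by
  have key : ∀ s t : unitInterval, (s : ℝ) ≤ t →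
      dist ((p.trans q) s) ((p.trans q) t) ≤ 2 * K * |(s : ℝ) - t| := by
    intro s t hst
    rw [Path.trans_apply, Path.trans_apply]
    split_ifs with h1 h2 h2
    · refine (hp _ _).trans (le_of_eq ?_)
      simp only
      rw [← mul_sub, abs_mul]
      norm_num
      ring
    · -- straddle
      have e1 := hp ⟨2 * s, (unitInterval.mul_pos_mem_iff zero_lt_two).2 ⟨s.2.1, h1⟩⟩ 1
      have e2 := hq 0 ⟨2 * t - 1, unitInterval.two_mul_sub_one_mem_iff.2 ⟨(not_le.1 h2).le, t.2.2⟩⟩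
      rw [p.target] at e1
      rw [q.source] at e2
      refine (dist_triangle _ b _).trans ?_
      refine (add_le_add e1 e2).trans ?_
      simp only [Icc.coe_one, Icc.coe_zero, zero_sub]
      push Not at h2
      rw [abs_of_nonpos (by linarith), abs_of_nonpos (by linarith), abs_of_nonpos (by linarith)]
      nlinarith
    · exfalso
      linarith
    · refine (hq _ _).trans (le_of_eq ?_)
      simp only
      rw [show (2 * (s:ℝ) - 1 - (2 * t - 1)) = 2 * (s - t) by ring, abs_mul]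
      norm_num
      ring
  intro s t
  rcases le_total (s:ℝ) t with h | h
  · exact key s t h
  · rw [dist_comm, abs_sub_comm]
    exact key t s h

/-- Two points are joined by a `K`-Lipschitz path. -/
def Reach (K : ℝ) (x y : X) : Prop := ∃ p : Path x y, LipPath K p

lemma Reach.symm {K : ℝ} {x y : X} (h : Reach K x y) : Reach K y x := by
  obtain ⟨p, hp⟩ := h
  exact ⟨p.symm, hp.symm⟩

lemma Reach.trans {K : ℝ} {x y z : X} (h : Reach K x y) (h' : Reach K y z) :
    Reach (2 * K) x z := by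
  obtain ⟨p, hp⟩ := h
  obtain ⟨q, hq⟩ := h'
  exact ⟨p.trans q, hp.trans hq⟩

lemma reach_of_fun {K : ℝ} {x y : X} (f : unitInterval → X)
    (hf : ∀ s t, dist (f s) (f t) ≤ K * |(s : ℝ) - t|) (h0 : f 0 = x) (h1 : f 1 = y) :
    Reach K x y := by
  have hc : Continuous f := by
    have : LipschitzWith (Real.toNNReal K) f := by
      apply LipschitzWith.of_dist_le_mul
      intro s t
      refine (hf s t).trans ?_
      rw [show dist s t = |(s:ℝ) - t| from rfl]
      exact mul_le_mul_of_nonneg_right (Real.le_coe_toNNReal K) (abs_nonneg _)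
    exact this.continuous
  exact ⟨⟨⟨f, hc⟩, h0, h1⟩, hf⟩

/-- Straight segments from the apex. -/
lemma reach_straight (h u : ℝ) (hh : h ∈ Icc (0:ℝ) 2) (hu : u ∈ Icc (0:ℝ) 1)
    (hk : ∀ h' ∈ Icc h 2, Kond h' u) :
    Reach 10 apex ⟨(h, (2 - h) * u), mem_XX hh hu (hk h ⟨le_rfl, hh.2⟩)⟩ := by
  have hm : ∀ t : unitInterval, 2 - (t:ℝ) * (2 - h) ∈ Icc h 2 := by
    intro t
    have h1 := t.2.1
    have h2 := t.2.2
    have h3 := hh.2
    constructor <;> nlinarith
  refine reach_of_fun (fun t => ⟨(2 - t * (2 - h), (2 - (2 - t * (2 - h))) * u),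
    mem_XX ⟨hh.1.trans (hm t).1, (hm t).2⟩ hu (hk _ (hm t))⟩) ?_ ?_ ?_
  · intro s t
    rw [Subtype.dist_eq, Prod.dist_eq]
    simp only [Real.dist_eq]
    have e0 : |2 - h| ≤ 2 := by
      rw [abs_of_nonneg (by linarith [hh.2])]
      linarith [hh.1]
    have e0' : |u| ≤ 1 := by
      rw [abs_of_nonneg hu.1]
      exact hu.2
    have hn := abs_nonneg ((s:ℝ) - t)
    apply max_le
    · rw [show (2 - (s:ℝ) * (2 - h) - (2 - t * (2 - h))) = -((s - t) * (2 - h)) by ring, abs_neg,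
        abs_mul]
      nlinarith
    · rw [show ((2 - (2 - (s:ℝ) * (2 - h))) * u - (2 - (2 - t * (2 - h))) * u) =
        ((s - t) * (2 - h) * u) by ring, abs_mul, abs_mul]
      have e1 : |(s:ℝ) - t| * |2 - h| ≤ |(s:ℝ) - t| * 2 := mul_le_mul_of_nonneg_left e0 hn
      have e2 : |(s:ℝ) - t| * |2 - h| * |u| ≤ |(s:ℝ) - t| * 2 * 1 := by
        apply mul_le_mul e1 e0' (abs_nonneg _) (by positivity)
      linarith
  · apply eq_apex
    simp
  · apply Subtype.ext
    simp only [Icc.coe_one, one_mul]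
    rw [show (2 - (2 - h)) = h by ring]

/-- The zigzag-type paths: first down the whisker at the top `s₀`, then along the zigzag to `s`. -/
noncomputable def SS (s₀ s τ : ℝ) : ℝ := s₀ + max 0 (2 * τ - 1) * (s - s₀)

noncomputable def HH (s₀ s τ : ℝ) : ℝ := Real.sin (SS s₀ s τ) ^ 2 + max 0 (1 - 2 * τ)

lemma SS_ge {s₀ s τ : ℝ} (h0 : 1 ≤ s₀) (h1 : 1 ≤ s) (hτ : τ ∈ Icc (0:ℝ) 1) :
    1 ≤ SS s₀ s τ := by
  unfold SS
  have h2 : 0 ≤ max 0 (2 * τ - 1) := le_max_left _ _
  have h3 : max 0 (2 * τ - 1) ≤ 1 := max_le zero_le_one (by linarith [hτ.2])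
  nlinarith

lemma HH_mem {s₀ s τ : ℝ} (hs₀ : Real.sin s₀ ^ 2 = 1) (hτ : τ ∈ Icc (0:ℝ) 1) :
    HH s₀ s τ ∈ Icc (0:ℝ) 2 ∧ (SS s₀ s τ ≠ 0 → Kond (HH s₀ s τ) (1 / SS s₀ s τ)) := by
  have hsin : Real.sin (SS s₀ s τ) ^ 2 ≤ 1 := by
    nlinarith [Real.sin_sq_add_cos_sq (SS s₀ s τ), sq_nonneg (Real.cos (SS s₀ s τ))]
  have hsin0 : 0 ≤ Real.sin (SS s₀ s τ) ^ 2 := sq_nonneg _
  rcases le_total τ (1/2) with h | h
  · have e1 : max 0 (2 * τ - 1) = 0 := max_eq_left (by linarith)
    have e2 : max 0 (1 - 2 * τ) = 1 - 2 * τ := max_eq_right (by linarith)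
    have e3 : SS s₀ s τ = s₀ := by
      unfold SS
      rw [e1]
      ring
    have e4 : HH s₀ s τ = 2 - 2 * τ := by
      unfold HH
      rw [e3, e2, hs₀]
      ring
    refine ⟨?_, ?_⟩
    · rw [e4]
      exact ⟨by linarith, by linarith [hτ.1]⟩
    · intro _
      right
      rw [e3, one_div_one_div, hs₀, e4]
      exact min_eq_right (by linarith)
  · have e2 : max 0 (1 - 2 * τ) = 0 := max_eq_left (by linarith)
    have e4 : HH s₀ s τ = Real.sin (SS s₀ s τ) ^ 2 := by
      unfold HH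
      rw [e2]
      ring
    refine ⟨?_, ?_⟩
    · rw [e4]
      exact ⟨hsin0, by linarith⟩
    · intro _
      right
      rw [one_div_one_div, e4]
      exact min_eq_left hsin

/-- The point of the zigzag-type path. -/
noncomputable def zz (s₀ s : ℝ) (h0 : 1 ≤ s₀) (h1 : 1 ≤ s) (hs₀ : Real.sin s₀ ^ 2 = 1)
    (τ : unitInterval) : X :=
  ⟨(HH s₀ s τ, (2 - HH s₀ s τ) * (1 / SS s₀ s τ)),
    mem_XX (HH_mem hs₀ τ.2).1 ⟨by
      have := SS_ge h0 h1 τ.2
      positivity, by
      have := SS_ge h0 h1 τ.2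
      rw [div_le_one (by linarith)]
      exact this⟩ ((HH_mem hs₀ τ.2).2 (by
      have := SS_ge h0 h1 τ.2
      linarith))⟩

lemma sin_sq_lip (a b : ℝ) : |Real.sin a ^ 2 - Real.sin b ^ 2| ≤ |a - b| := by
  have h : Real.sin a ^ 2 - Real.sin b ^ 2 = Real.sin (a - b) * Real.sin (a + b) := by
    rw [Real.sin_sub, Real.sin_add]
    have h1 := Real.sin_sq_add_cos_sq a
    have h2 := Real.sin_sq_add_cos_sq b
    have h3 : Real.cos a ^ 2 = 1 - Real.sin a ^ 2 := by linarith
    have h4 : Real.cos b ^ 2 = 1 - Real.sin b ^ 2 := by linarith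
    have : (Real.sin a * Real.cos b - Real.cos a * Real.sin b) *
      (Real.sin a * Real.cos b + Real.cos a * Real.sin b) =
      Real.sin a ^ 2 * Real.cos b ^ 2 - Real.cos a ^ 2 * Real.sin b ^ 2 := by ring
    rw [this, h3, h4]
    ring
  rw [h, abs_mul]
  calc |Real.sin (a - b)| * |Real.sin (a + b)| ≤ |a - b| * 1 := by
        apply mul_le_mul Real.abs_sin_le_abs (Real.abs_sin_le_one _) (abs_nonneg _) (abs_nonneg _)
    _ = |a - b| := mul_one _

lemma SS_lip (s₀ s σ τ : ℝ) : |SS s₀ s σ - SS s₀ s τ| ≤ 2 * |s - s₀| * |σ - τ| := by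
  unfold SS
  rw [show s₀ + max 0 (2 * σ - 1) * (s - s₀) - (s₀ + max 0 (2 * τ - 1) * (s - s₀)) =
    (max 0 (2 * σ - 1) - max 0 (2 * τ - 1)) * (s - s₀) by ring, abs_mul]
  have h1 : |max 0 (2 * σ - 1) - max 0 (2 * τ - 1)| ≤ |(2 * σ - 1) - (2 * τ - 1)| := by
    have := abs_max_sub_max_le_abs (2 * σ - 1) (2 * τ - 1) 0
    rw [max_comm (2 * σ - 1), max_comm (2 * τ - 1)] at this
    exact this
  rw [show (2 * σ - 1) - (2 * τ - 1) = 2 * (σ - τ) by ring, abs_mul, abs_two] at h1
  calc _ ≤ 2 * |σ - τ| * |s - s₀| := mul_le_mul_of_nonneg_right h1 (abs_nonneg _)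
    _ = _ := by ring

lemma HH_lip (s₀ s σ τ : ℝ) : |HH s₀ s σ - HH s₀ s τ| ≤ (2 * |s - s₀| + 2) * |σ - τ| := by
  unfold HH
  have h1 := sin_sq_lip (SS s₀ s σ) (SS s₀ s τ)
  have h2 := SS_lip s₀ s σ τ
  have h3 : |max 0 (1 - 2 * σ) - max 0 (1 - 2 * τ)| ≤ 2 * |σ - τ| := by
    have := abs_max_sub_max_le_abs (1 - 2 * σ) (1 - 2 * τ) 0
    rw [max_comm (1 - 2 * σ), max_comm (1 - 2 * τ)] at this
    refine this.trans ?_
    rw [show 1 - 2 * σ - (1 - 2 * τ) = -(2 * (σ - τ)) by ring, abs_neg, abs_mul, abs_two]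
  calc _ = |(Real.sin (SS s₀ s σ) ^ 2 - Real.sin (SS s₀ s τ) ^ 2) +
      (max 0 (1 - 2 * σ) - max 0 (1 - 2 * τ))| := by
        congr 1
        ring
    _ ≤ _ := abs_add_le _ _
    _ ≤ 2 * |s - s₀| * |σ - τ| + 2 * |σ - τ| := by linarith
    _ = _ := by ring

lemma zz_lip (s₀ s : ℝ) (h0 : 1 ≤ s₀) (h1 : 1 ≤ s) (hs₀ : Real.sin s₀ ^ 2 = 1)
    (σ τ : unitInterval) :
    dist (zz s₀ s h0 h1 hs₀ σ) (zz s₀ s h0 h1 hs₀ τ) ≤ (6 * |s - s₀| + 2) * |(σ:ℝ) - τ| := by
  rw [Subtype.dist_eq, Prod.dist_eq]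
  simp only [zz, Real.dist_eq]
  have e1 := HH_lip s₀ s σ τ
  have e2 := SS_lip s₀ s σ τ
  have hn := abs_nonneg ((σ:ℝ) - τ)
  have hn' := abs_nonneg (s - s₀)
  apply max_le
  · refine e1.trans ?_
    nlinarith
  · have g1 := SS_ge h0 h1 σ.2
    have g2 := SS_ge h0 h1 τ.2
    have k1 := (HH_mem (s := s) hs₀ σ.2).1
    have k2 := (HH_mem (s := s) hs₀ τ.2).1
    set A := SS s₀ s σ
    set B := SS s₀ s τ
    set C := HH s₀ s σ
    set D := HH s₀ s τ
    have e3 : |1 / A - 1 / B| ≤ |A - B| := by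
      have : 1 / A - 1 / B = (B - A) / (A * B) := by
        field_simp
      rw [this, abs_div, abs_sub_comm B A]
      apply div_le_self (abs_nonneg _)
      rw [abs_of_nonneg (by nlinarith)]
      nlinarith
    have e4 : (2 - C) * (1 / A) - (2 - D) * (1 / B) =
        (D - C) * (1 / A) + (2 - D) * (1 / A - 1 / B) := by ring
    rw [e4]
    have e5 : |1 / A| ≤ 1 := by
      rw [abs_of_nonneg (by positivity), div_le_one (by linarith)]
      exact g1
    have e6 : |2 - D| ≤ 2 := by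
      rw [abs_of_nonneg (by linarith [k2.2])]
      linarith [k2.1]
    calc _ ≤ |(D - C) * (1 / A)| + |(2 - D) * (1 / A - 1 / B)| := abs_add_le _ _
      _ ≤ |C - D| * 1 + 2 * |A - B| := by
        rw [abs_mul, abs_mul, abs_sub_comm D C]
        apply add_le_add
        · exact mul_le_mul_of_nonneg_left e5 (abs_nonneg _)
        · exact mul_le_mul e6 e3 (abs_nonneg _) (by norm_num)
      _ ≤ _ := by
        nlinarith

lemma zz_zero (s₀ s : ℝ) (h0 : 1 ≤ s₀) (h1 : 1 ≤ s) (hs₀ : Real.sin s₀ ^ 2 = 1) :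
    zz s₀ s h0 h1 hs₀ 0 = apex := by
  apply eq_apex
  simp only [zz, HH, SS, Icc.coe_zero]
  norm_num
  linarith

lemma zz_one (s₀ s : ℝ) (h0 : 1 ≤ s₀) (h1 : 1 ≤ s) (hs₀ : Real.sin s₀ ^ 2 = 1) :
    (zz s₀ s h0 h1 hs₀ 1).1 = (Real.sin s ^ 2, (2 - Real.sin s ^ 2) * (1 / s)) := by
  simp only [zz, HH, SS, Icc.coe_one]
  norm_num

lemma Reach.mono {K L : ℝ} (h : K ≤ L) {x y : X} (hr : Reach K x y) : Reach L x y := by
  obtain ⟨p, hp⟩ := hr
  exact ⟨p, fun s t => (hp s t).trans (mul_le_mul_of_nonneg_right h (abs_nonneg _))⟩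

/-- The nearest top. -/
lemma exists_top {s : ℝ} (hs : 1 ≤ s) :
    ∃ s₀ : ℝ, 1 ≤ s₀ ∧ Real.sin s₀ ^ 2 = 1 ∧ |s - s₀| ≤ 8/5 := by
  have hpi := Real.pi_pos
  have hpi4 := Real.pi_gt_three
  have hpi5 := Real.pi_lt_d2
  set k : ℕ := ⌊s / Real.pi⌋₊ with hk
  have h1 : (k : ℝ) ≤ s / Real.pi := Nat.floor_le (by positivity)
  have h2 : s / Real.pi < k + 1 := Nat.lt_floor_add_one _
  rw [le_div_iff₀ hpi] at h1
  rw [div_lt_iff₀ hpi] at h2
  refine ⟨k * Real.pi + Real.pi / 2, ?_, ?_, ?_⟩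
  · have : (0:ℝ) ≤ k * Real.pi := by positivity
    linarith
  · rw [Real.sin_add, Real.sin_pi_div_two, Real.cos_pi_div_two, Real.sin_nat_mul_pi]
    rw [Real.cos_nat_mul_pi]
    simp only [mul_zero, zero_add, mul_one]
    rw [← pow_mul, mul_comm, pow_mul]
    norm_num
  · rw [abs_le]
    constructor <;> nlinarith

lemma reach_apex (x : X) : Reach 12 apex x := by
  obtain ⟨x, ⟨h, u⟩, ⟨hh, hu, hk⟩, he⟩ := x
  simp only at hh hu hk he
  rcases hk with hk | hk
  · have := reach_straight h u hh hu (fun _ _ => Or.inl hk)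
    have e : (⟨x, ⟨(h, u), ⟨hh, hu, Or.inl hk⟩, he⟩⟩ : X) =
        ⟨(h, (2 - h) * u), mem_XX hh hu (Or.inl hk)⟩ := Subtype.ext he.symm
    rw [e]
    exact this.mono (by norm_num)
  · by_cases h1 : 1 ≤ h
    · rw [min_eq_right h1] at hk
      have hK : ∀ h' ∈ Icc h 2, Kond h' u := by
        intro h' hh'
        right
        rw [min_eq_right (h1.trans hh'.1)]
        exact hk
      have := reach_straight h u hh hu hK
      have e : (⟨x, ⟨(h, u), ⟨hh, hu, hK h ⟨le_rfl, hh.2⟩⟩, he⟩⟩ : X) =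
          ⟨(h, (2 - h) * u), mem_XX hh hu (hK h ⟨le_rfl, hh.2⟩)⟩ := Subtype.ext he.symm
      rw [e]
      exact this.mono (by norm_num)
    · rw [min_eq_left (not_le.1 h1).le] at hk
      by_cases hu0 : u = 0
      · have := reach_straight h u hh hu (fun _ _ => Or.inl hu0)
        have e : (⟨x, ⟨(h, u), ⟨hh, hu, Or.inl hu0⟩, he⟩⟩ : X) =
            ⟨(h, (2 - h) * u), mem_XX hh hu (Or.inl hu0)⟩ := Subtype.ext he.symm
        rw [e]
        exact this.mono (by norm_num)
      · have hu1 : 0 < u := lt_of_le_of_ne hu.1 (Ne.symm hu0)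
        have hs : 1 ≤ 1 / u := by
          rw [le_div_iff₀ hu1]
          linarith [hu.2]
        obtain ⟨s₀, g0, g1, g2⟩ := exists_top hs
        refine reach_of_fun (zz s₀ (1 / u) g0 hs g1) ?_ (zz_zero _ _ _ _ _) ?_
        · intro σ τ
          refine (zz_lip _ _ _ _ _ _ _).trans ?_
          apply mul_le_mul_of_nonneg_right _ (abs_nonneg _)
          linarith
        · apply Subtype.ext
          refine Eq.trans ?_ he
          rw [zz_one, one_div_one_div, ← hk]

lemma reach (x y : X) : Reach 24 x y := by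
  have := (reach_apex x).symm.trans (reach_apex y)
  exact this.mono (by norm_num)

instance : ConnectedSpace X := by
  have : PathConnectedSpace X := ⟨⟨apex⟩, fun x y => ⟨(reach x y).choose⟩⟩
  infer_instance

lemma diam_le {a b : X} {p : Path a b} {K : ℝ} (hK : 0 ≤ K) (hp : LipPath K p)
    (s t : unitInterval) : Metric.diam (⇑p '' Icc s t) ≤ K * |(s:ℝ) - t| := by
  apply Metric.diam_le_of_forall_dist_le (by positivity)
  rintro _ ⟨σ, hσ, rfl⟩ _ ⟨τ, hτ, rfl⟩
  refine (hp σ τ).trans ?_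
  apply mul_le_mul_of_nonneg_left _ hK
  have h1 : (s:ℝ) ≤ σ := hσ.1
  have h2 : (σ:ℝ) ≤ t := hσ.2
  have h3 : (s:ℝ) ≤ τ := hτ.1
  have h4 : (τ:ℝ) ≤ t := hτ.2
  rw [abs_of_nonpos (by linarith : (s:ℝ) - t ≤ 0)]
  rw [abs_le]
  constructor <;> linarith

/-- Uniform collections of paths. -/
def Uniform {a b : X} (P : Set (Path a b)) : Prop :=
  ∀ ε : ℝ, ε > 0 → ∃ n : ℕ, ∀ p ∈ P, ∃ t : Fin (n + 1) → unitInterval,
    t 0 = 0 ∧ t (Fin.last n) = 1 ∧ StrictMono t ∧
    ∀ i : Fin n, Metric.diam (⇑p '' Set.Icc (t i.castSucc) (t i.succ)) ≤ ε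

lemma uniform_lip {a b : X} {K : ℝ} (hK : 0 ≤ K) : Uniform {p : Path a b | LipPath K p} := by
  intro ε hε
  obtain ⟨n, hn⟩ := exists_nat_gt (K / ε)
  have hn0 : 0 < n + 1 := Nat.succ_pos n
  refine ⟨n + 1, fun p hp => ⟨fun i => ⟨(i : ℝ) / ((n + 1 : ℕ) : ℝ), ?_, ?_⟩, ?_, ?_, ?_, ?_⟩⟩
  · positivity
  · rw [div_le_one (by positivity)]
    have := i.2
    exact_mod_cast Nat.lt_succ_iff.1 this
  · apply Subtype.ext
    simp
  · apply Subtype.ext
    simp only [Fin.val_last, Icc.coe_one]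
    apply div_self
    positivity
  · intro i j hij
    rw [← Subtype.coe_lt_coe]
    simp only
    apply div_lt_div_of_pos_right _ (by positivity)
    exact_mod_cast hij
  · intro i
    refine (diam_le hK hp _ _).trans ?_
    simp only [Fin.val_castSucc, Fin.val_succ]
    rw [← sub_div, abs_div]
    rw [show |(i:ℝ) - ((i + 1 : ℕ) : ℝ)| = 1 by
      push_cast
      rw [show (i:ℝ) - (i + 1) = -1 by ring]
      norm_num]
    rw [abs_of_nonneg (by positivity)]
    push_cast
    rw [div_lt_iff₀ hε] at hn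
    rw [mul_one_div, div_le_iff₀ (by positivity)]
    nlinarith

/-- The continuum is uniformly pathwise connected. -/
theorem uniformly_pathwise (a b : X) : ∃ P : Set (Path a b), Uniform P ∧
    (⋃ p ∈ P, Set.range ⇑p) = Set.univ := by
  refine ⟨{p : Path a b | LipPath 48 p}, uniform_lip (by norm_num), ?_⟩
  rw [eq_univ_iff_forall]
  intro x
  obtain ⟨p, hp⟩ := reach a x
  obtain ⟨q, hq⟩ := reach x b
  have hpq := hp.trans hq
  norm_num at hpq
  refine mem_iUnion₂.2 ⟨p.trans q, hpq, ?_⟩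
  rw [Path.trans_range]
  left
  exact ⟨1, p.target⟩

/-- The other end point. -/
noncomputable def bb : X := ⟨(Real.sin 1 ^ 2, (2 - Real.sin 1 ^ 2) * 1), mem_XX
  ⟨sq_nonneg _, by nlinarith [Real.sin_sq_add_cos_sq 1, sq_nonneg (Real.cos 1)]⟩
  ⟨zero_le_one, le_rfl⟩ (by
    right
    rw [one_div_one]
    apply min_eq_left
    nlinarith [Real.sin_sq_add_cos_sq 1, sq_nonneg (Real.cos 1)])⟩

/-- The parameter `u`, defined off the apex. -/
noncomputable def uu (x : X) : ℝ := x.1.2 / (2 - x.1.1)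

lemma uu_spec {x : X} (hx : x ≠ apex) : 0 < 2 - x.1.1 ∧ uu x ∈ Icc (0:ℝ) 1 ∧
    Kond x.1.1 (uu x) := by
  have hx2 : x.1.1 ≠ 2 := fun h => hx (eq_apex h)
  obtain ⟨x, ⟨h, u⟩, ⟨hh, hu, hk⟩, he⟩ := x
  simp only at hh hu hk he
  subst he
  simp only at hx2
  have hlt : h < 2 := lt_of_le_of_ne hh.2 hx2
  have e : uu ⟨(h, (2 - h) * u), ⟨(h, u), ⟨hh, hu, hk⟩, rfl⟩⟩ = u := by
    unfold uu
    simp only
    rw [mul_comm, mul_div_assoc, div_self (by linarith), mul_one]
  refine ⟨by linarith, ?_, ?_⟩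
  · rw [e]
    exact hu
  · rw [e]
    exact hk

lemma uu_zz (s₀ s : ℝ) (h0 : 1 ≤ s₀) (h1 : 1 ≤ s) (hs₀ : Real.sin s₀ ^ 2 = 1)
    (τ : unitInterval) (h : (zz s₀ s h0 h1 hs₀ τ).1.1 ≠ 2) :
    uu (zz s₀ s h0 h1 hs₀ τ) = 1 / SS s₀ s τ := by
  unfold uu
  simp only [zz] at h ⊢
  rw [mul_comm, mul_div_assoc, div_self (by
    intro h'
    apply h
    linarith), mul_one]

lemma zz_injective (s₀ : ℝ) (h0 : 1 < s₀) (hs₀ : Real.sin s₀ ^ 2 = 1) :
    Function.Injective (zz s₀ 1 h0.le le_rfl hs₀) := by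
  have key0 : ∀ τ : unitInterval, (τ:ℝ) ≤ 1/2 → SS s₀ 1 τ = s₀ ∧ HH s₀ 1 τ = 2 - 2 * τ := by
    intro τ h
    have e1 : max 0 (2 * (τ:ℝ) - 1) = 0 := max_eq_left (by linarith)
    have e2 : max 0 (1 - 2 * (τ:ℝ)) = 1 - 2 * τ := max_eq_right (by linarith)
    have e3 : SS s₀ 1 τ = s₀ := by
      unfold SS
      rw [e1]
      ring
    refine ⟨e3, ?_⟩
    unfold HH
    rw [e3, e2, hs₀]
    ring
  have key1 : ∀ τ : unitInterval, 1/2 ≤ (τ:ℝ) →
      SS s₀ 1 τ = s₀ - (2 * τ - 1) * (s₀ - 1) ∧ HH s₀ 1 τ ≤ 1 := by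
    intro τ h
    have e1 : max 0 (2 * (τ:ℝ) - 1) = 2 * τ - 1 := max_eq_right (by linarith)
    have e2 : max 0 (1 - 2 * (τ:ℝ)) = 0 := max_eq_left (by linarith)
    refine ⟨?_, ?_⟩
    · unfold SS
      rw [e1]
      ring
    · unfold HH
      rw [e2]
      nlinarith [Real.sin_sq_add_cos_sq (SS s₀ 1 τ), sq_nonneg (Real.cos (SS s₀ 1 τ))]
  intro σ τ he
  have hH : HH s₀ 1 σ = HH s₀ 1 τ := congrArg (fun x : X => x.1.1) he
  apply Subtype.ext
  by_cases h2 : HH s₀ 1 τ = 2
  · have : ∀ ρ : unitInterval, HH s₀ 1 ρ = 2 → (ρ:ℝ) = 0 := by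
      intro ρ hρ
      rcases le_total (ρ:ℝ) (1/2) with h | h
      · have := (key0 ρ h).2
        linarith
      · have := (key1 ρ h).2
        linarith
    rw [this τ h2, this σ (hH.trans h2)]
  · have h2' : HH s₀ 1 σ ≠ 2 := fun h => h2 (hH.symm.trans h)
    have hu := congrArg uu he
    rw [uu_zz _ _ _ _ _ _ h2, uu_zz _ _ _ _ _ _ h2'] at hu
    have hS : SS s₀ 1 σ = SS s₀ 1 τ := by
      have := congrArg (fun x : ℝ => 1 / x) hu
      simpa using this
    rcases le_total (σ:ℝ) (1/2) with h | h <;> rcases le_total (τ:ℝ) (1/2) with h' | h'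
    · have := (key0 σ h).2
      have := (key0 τ h').2
      linarith
    · have a1 := (key0 σ h).1
      have a2 := (key1 τ h').1
      have a3 : (2 * (τ:ℝ) - 1) * (s₀ - 1) = 0 := by linarith
      rcases mul_eq_zero.1 a3 with a4 | a4
      · have a5 : (τ:ℝ) = 1/2 := by linarith
        have b1 := (key0 σ h).2
        have b2 := (key0 τ a5.le).2
        linarith
      · linarith
    · have a1 := (key0 τ h').1
      have a2 := (key1 σ h).1
      have a3 : (2 * (σ:ℝ) - 1) * (s₀ - 1) = 0 := by linarith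
      rcases mul_eq_zero.1 a3 with a4 | a4
      · have a5 : (σ:ℝ) = 1/2 := by linarith
        have b1 := (key0 τ h').2
        have b2 := (key0 σ a5.le).2
        linarith
      · linarith
    · have a1 := (key1 τ h').1
      have a2 := (key1 σ h).1
      have a3 : ((σ:ℝ) - τ) * (s₀ - 1) = 0 := by linarith
      rcases mul_eq_zero.1 a3 with a4 | a4
      · linarith
      · linarith

lemma zz_continuous (s₀ : ℝ) (h0 : 1 ≤ s₀) (hs₀ : Real.sin s₀ ^ 2 = 1) :
    Continuous (zz s₀ 1 h0 le_rfl hs₀) := by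
  have : LipschitzWith (Real.toNNReal (6 * |1 - s₀| + 2)) (zz s₀ 1 h0 le_rfl hs₀) := by
    apply LipschitzWith.of_dist_le_mul
    intro s t
    refine (zz_lip _ _ _ _ _ s t).trans ?_
    rw [show dist s t = |(s:ℝ) - t| from rfl]
    exact mul_le_mul_of_nonneg_right (Real.le_coe_toNNReal _) (abs_nonneg _)
  exact this.continuous

/-- The arc from the apex through the top `s₀` to `bb`. -/
noncomputable def arc (s₀ : ℝ) (h0 : 1 < s₀) (hs₀ : Real.sin s₀ ^ 2 = 1) : Path apex bb where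
  toFun := zz s₀ 1 h0.le le_rfl hs₀
  continuous_toFun := zz_continuous _ _ _
  source' := zz_zero _ _ _ _ _
  target' := by
    apply Subtype.ext
    rw [zz_one]
    simp [bb]

/-- Tops. -/
noncomputable def top (n : ℕ) : ℝ := n * Real.pi + Real.pi / 2

lemma top_gt (n : ℕ) : 1 < top n := by
  unfold top
  have h1 := Real.pi_gt_three
  have : (0:ℝ) ≤ n * Real.pi := by positivity
  linarith

lemma sin_top (n : ℕ) : Real.sin (top n) ^ 2 = 1 := by
  unfold top
  rw [Real.sin_add, Real.sin_pi_div_two, Real.cos_pi_div_two, Real.sin_nat_mul_pi]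
  rw [Real.cos_nat_mul_pi]
  simp only [mul_zero, zero_add, mul_one]
  rw [← pow_mul, mul_comm, pow_mul]
  norm_num

/-- The point of `X` at the top number `n`. -/
noncomputable def pp (n : ℕ) : X := zz (top n) 1 (top_gt n).le le_rfl (sin_top n) ⟨1/2, by norm_num, by norm_num⟩

lemma pp_val (n : ℕ) : (pp n).1 = (1, 1 / top n) := by
  have e3 : SS (top n) 1 (1/2) = top n := by
    unfold SS
    norm_num
  have e4 : HH (top n) 1 (1/2) = 1 := by
    unfold HH
    rw [e3, sin_top]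
    norm_num
  unfold pp zz
  simp only [e3, e4]
  norm_num

/-- The main estimate: an injective path from the apex to `bb` through `pp n`, cut into `m` pieces
of diameter at most `1/2`, needs `m ≥ (top n - 1) / 7`. -/
theorem main_estimate (n m : ℕ) (p : Path apex bb) (hp : Function.Injective ⇑p)
    (hn : pp n ∈ Set.range ⇑p) (t : Fin (m + 1) → unitInterval) (t0 : t 0 = 0)
    (t1 : t (Fin.last m) = 1) (tm : StrictMono t)
    (hd : ∀ i : Fin m, Metric.diam (⇑p '' Set.Icc (t i.castSucc) (t i.succ)) ≤ 1/2) :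
    top n - 1 ≤ 7 * m := by
  obtain ⟨s₀, hs₀⟩ := hn
  have hs₀0 : s₀ ≠ 0 := by
    rintro rfl
    rw [p.source] at hs₀
    have := congrArg (fun x : X => x.1.1) hs₀
    simp only [pp_val, apex_fst] at this
    norm_num at this
  have hs₀pos : 0 < s₀ := lt_of_le_of_ne s₀.2.1 (Ne.symm hs₀0)
  have hne : ∀ τ : unitInterval, p (max τ s₀) ≠ apex := by
    intro τ h
    have := hp (h.trans p.source.symm)
    have h2 : s₀ ≤ max τ s₀ := le_max_right _ _
    rw [this] at h2
    exact absurd hs₀pos (not_lt.2 h2)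
  -- the function
  set M := top n with hM
  have hM1 : 1 < M := top_gt n
  set f : unitInterval → ℝ := fun τ => uu (p (max τ s₀)) with hf
  have hfc : Continuous f := by
    have hc : Continuous fun τ : unitInterval => p (max τ s₀) :=
      p.continuous.comp (continuous_id.max continuous_const)
    have hc' : Continuous fun τ : unitInterval => (p (max τ s₀)).1 :=
      continuous_subtype_val.comp hc
    refine Continuous.div (continuous_snd.comp hc')
      (continuous_const.sub (continuous_fst.comp hc')) ?_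
    intro τ
    exact (uu_spec (hne τ)).1.ne'
  set r : unitInterval → ℝ := fun τ => 1 / max (f τ) (1 / M) with hr
  have hMpos : 0 < 1 / M := by positivity
  have hrc : Continuous r := by
    refine Continuous.div continuous_const (hfc.max continuous_const) ?_
    intro τ
    exact (lt_of_lt_of_le hMpos (le_max_right _ _)).ne'
  have hr0 : r 0 = M := by
    have : f 0 = 1 / M := by
      simp only [hf]
      rw [max_eq_right (show (0 : unitInterval) ≤ s₀ from s₀.2.1), hs₀]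
      unfold uu
      rw [pp_val]
      norm_num
      exact hM.symm
    simp only [hr]
    rw [this, max_self, one_div_one_div]
  have hr1 : r 1 = 1 := by
    have : f 1 = 1 := by
      simp only [hf]
      rw [max_eq_left (show s₀ ≤ (1 : unitInterval) from s₀.2.2), p.target]
      unfold uu bb
      simp only [mul_one]
      apply div_self
      have := Real.sin_sq_add_cos_sq 1
      have := sq_nonneg (Real.cos 1)
      linarith
    simp only [hr]
    rw [this, max_eq_left, div_one]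
    rw [div_le_one (by linarith)]
    exact hM1.le
  have hrM : ∀ τ, r τ ≤ M := by
    intro τ
    simp only [hr]
    rw [div_le_iff₀ (lt_of_lt_of_le hMpos (le_max_right _ _))]
    have : 1 / M ≤ max (f τ) (1 / M) := le_max_right _ _
    calc 1 = M * (1 / M) := by field_simp
      _ ≤ _ := mul_le_mul_of_nonneg_left this (by linarith)
  -- the height at points with a given value of `r`
  have hval : ∀ τ, r τ < M → f τ = 1 / r τ := by
    intro τ h
    simp only [hr] at h ⊢
    rw [one_div_one_div]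
    rcases le_total (f τ) (1 / M) with h' | h'
    · rw [max_eq_right h', one_div_one_div] at h
      exact absurd h (lt_irrefl _)
    · rw [max_eq_left h']
  have hheight : ∀ τ, r τ < M → 0 < r τ → min (p (max τ s₀)).1.1 1 = Real.sin (r τ) ^ 2 := by
    intro τ h h'
    have h1 := hval τ h
    have h2 := (uu_spec (hne τ)).2.2
    rcases h2 with h2 | h2
    · exfalso
      have : f τ = 0 := h2
      rw [h1] at this
      have : r τ = 0 := by simpa using this
      linarith
    · have h3 : uu (p (max τ s₀)) = 1 / r τ := h1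
      rw [h3, one_div_one_div] at h2
      exact h2
  have hrpos : ∀ τ, 0 < r τ := by
    intro τ
    simp only [hr]
    have := lt_of_lt_of_le hMpos (le_max_right (f τ) (1 / M))
    positivity
  -- each piece
  have hpiece : ∀ i : Fin m, r (t i.castSucc) - r (t i.succ) ≤ 7 := by
    intro i
    by_contra hcon
    push Not at hcon
    set α := r (t i.succ) with hα
    set β := r (t i.castSucc) with hβ
    have hαpos : 0 < α := hrpos _
    have hβM : β ≤ M := hrM _
    have hle : t i.castSucc ≤ t i.succ := (tm (Fin.castSucc_lt_succ)).le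
    have hs₀le : s₀ ≤ t i.succ := by
      by_contra hlt
      push Not at hlt
      have e1 : r (t i.castSucc) = r (t i.succ) := by
        simp only [hr, hf]
        rw [max_eq_right hlt.le, max_eq_right (hle.trans hlt.le)]
      rw [← hβ, ← hα] at e1
      linarith
    -- choose k
    obtain ⟨k, hk1, hk2⟩ : ∃ k : ℕ, α < k * Real.pi ∧ k * Real.pi + Real.pi / 2 < β := by
      refine ⟨⌊α / Real.pi⌋₊ + 1, ?_, ?_⟩
      · have := Nat.lt_floor_add_one (α / Real.pi)
        rw [div_lt_iff₀ Real.pi_pos] at this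
        push_cast
        exact this
      · have := Nat.floor_le (show 0 ≤ α / Real.pi by positivity)
        rw [le_div_iff₀ Real.pi_pos] at this
        push_cast
        have h3 := Real.pi_lt_d2
        nlinarith
    have hIVT : ∀ c, α < c → c < β → ∃ τ ∈ Icc (t i.castSucc) (t i.succ), r τ = c := by
      intro c hc1 hc2
      have := intermediate_value_Icc' hle hrc.continuousOn
      exact this ⟨hc1.le, hc2.le⟩
    have hpi := Real.pi_pos
    obtain ⟨τ, hτ, hτk⟩ := hIVT (k * Real.pi) hk1 (by linarith)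
    obtain ⟨τ', hτ', hτk'⟩ := hIVT (k * Real.pi + Real.pi / 2) (by linarith) hk2
    have e1 := hheight τ (by rw [hτk]; linarith) (hrpos _)
    have e2 := hheight τ' (by rw [hτk']; linarith) (hrpos _)
    rw [hτk, Real.sin_nat_mul_pi] at e1
    have e3 := sin_top k
    unfold top at e3
    rw [hτk', e3] at e2
    have f1 : (p (max τ s₀)).1.1 ≤ 0 := by
      by_contra h
      push Not at h
      have : 0 < min (p (max τ s₀)).1.1 1 := lt_min h one_pos
      rw [e1] at this
      norm_num at this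
    have f2 : 1 ≤ (p (max τ' s₀)).1.1 := by
      rw [← e2]
      exact min_le_left _ _
    have g1 : max τ s₀ ∈ Icc (t i.castSucc) (t i.succ) :=
      ⟨hτ.1.trans (le_max_left _ _), max_le hτ.2 hs₀le⟩
    have g2 : max τ' s₀ ∈ Icc (t i.castSucc) (t i.succ) :=
      ⟨hτ'.1.trans (le_max_left _ _), max_le hτ'.2 hs₀le⟩
    have hb : Bornology.IsBounded (⇑p '' Set.Icc (t i.castSucc) (t i.succ)) :=
      (isCompact_univ (X := X)).isBounded.subset (subset_univ _)
    have h1 := Metric.dist_le_diam_of_mem hb (mem_image_of_mem p g1) (mem_image_of_mem p g2)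
    have h2 := h1.trans (hd i)
    rw [Subtype.dist_eq, Prod.dist_eq] at h2
    have h3 := (le_max_left _ _).trans h2
    rw [Real.dist_eq] at h3
    rw [abs_le] at h3
    linarith [h3.1]
  -- telescoping
  have htel : ∀ j : ℕ, ∀ hj : j < m + 1, r (t 0) - r (t ⟨j, hj⟩) ≤ 7 * j := by
    intro j
    induction j with
    | zero =>
      intro hj
      have : (⟨0, hj⟩ : Fin (m + 1)) = 0 := rfl
      rw [this]
      simp
    | succ j ih =>
      intro hj
      have h1 := ih (Nat.lt_of_succ_lt hj)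
      have h2 := hpiece ⟨j, Nat.lt_of_succ_lt_succ hj⟩
      have e1 : (⟨j, Nat.lt_of_succ_lt_succ hj⟩ : Fin m).castSucc = ⟨j, Nat.lt_of_succ_lt hj⟩ := rfl
      have e2 : (⟨j, Nat.lt_of_succ_lt_succ hj⟩ : Fin m).succ = ⟨j + 1, hj⟩ := rfl
      rw [e1, e2] at h2
      push_cast
      linarith
  have := htel m (Nat.lt_succ_self m)
  have e : (⟨m, Nat.lt_succ_self m⟩ : Fin (m + 1)) = Fin.last m := rfl
  rw [e, t0, t1, hr0, hr1] at this
  exact this

/-- The continuum is not uniformly arcwise connected. -/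
theorem not_uniformly_arcwise (P : Set (Path apex bb)) (hP : ∀ p ∈ P, Function.Injective ⇑p)
    (hu : Uniform P) : (⋃ p ∈ P, Set.range ⇑p) ≠
      ⋃ (q : Path apex bb) (_ : Function.Injective ⇑q), Set.range ⇑q := by
  intro he
  obtain ⟨m, hm⟩ := hu (1/2) (by norm_num)
  obtain ⟨n, hn⟩ := exists_nat_gt (7 * (m:ℝ) + 1)
  have hmem : pp n ∈ ⋃ (q : Path apex bb) (_ : Function.Injective ⇑q), Set.range ⇑q := by
    refine mem_iUnion₂.2 ⟨arc (top n) (top_gt n) (sin_top n), zz_injective _ (top_gt n) (sin_top n), ?_⟩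
    exact ⟨⟨1/2, by norm_num, by norm_num⟩, rfl⟩
  rw [← he] at hmem
  obtain ⟨p, hpP, hp⟩ := mem_iUnion₂.1 hmem
  obtain ⟨t, t0, t1, tm, hd⟩ := hm p hpP
  have := main_estimate n m p (hP p hpP) hp t t0 t1 tm hd
  have h3 : (n:ℝ) ≤ top n := by
    unfold top
    have h1 := Real.pi_gt_three
    have h2 : (0:ℝ) ≤ n := Nat.cast_nonneg n
    nlinarith
  linarith

end Pool.Agent.D0H84.Kup
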